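import Pool.Agent.W2helper8.ZQ.Stm
import Pool.Agent.H306R2.EP

/-!
# Project ZQ, piece ZC2: convergence, holomorphy and size of the Dirichlet series of `ζ^b`
-/

set_option autoImplicit false

open Finset Filter Topology
open Pool.Agent.H306R2 Pool.Agent.W2helper8.ZQ

namespace Pool.Agent.W2helper82.ZQ

lemma abs_lc_le (b : ℝ) (m : ℕ) : |lc b m| ≤ lc |b| m := by
  unfold lc
  rw [Finset.abs_prod]
  refine Finset.prod_le_prod (fun i _ => abs_nonneg _) fun i _ => ?_
  have h : (0 : ℝ) < (i : ℝ) + 1 := by positivity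
  rw [abs_div, abs_of_pos h]
  refine div_le_div_of_nonneg_right ?_ h.le
  calc |b + (i : ℝ)| ≤ |b| + |(i : ℝ)| := abs_add_le _ _
    _ = |b| + i := by rw [Nat.abs_cast]

lemma abs_dv_le (b : ℝ) (n : ℕ) : |dv b n| ≤ dv |b| n := by
  unfold dv
  split_ifs
  · simp
  · unfold Finsupp.prod
    rw [Finset.abs_prod]
    exact Finset.prod_le_prod (fun p _ => abs_nonneg _) fun p _ => abs_lc_le b _

lemma summable_dv {β : ℝ} (hβ : 0 ≤ β) {σ : ℝ} (hσ : 0 < σ) :
    Summable (fun n : ℕ => dv β n * (n : ℝ) ^ (-1 - σ)) := by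
  obtain ⟨J, hJ⟩ := exists_nat_ge β
  refine Summable.of_nonneg_of_le (fun n => mul_nonneg (dv_nonneg hβ n) (by positivity))
    (fun n => ?_) (dvJ_summable J hσ)
  exact mul_le_mul_of_nonneg_right (dv_mono hβ hJ n) (by positivity)

lemma choose_eq_lc (a : ℝ) (n : ℕ) : Ring.choose (a + n - 1) n = lc a n := by
  have h1 : Ring.choose (a + n - 1) n = Ring.multichoose a n := by
    unfold Ring.choose
    congr 1
    ring
  rw [h1]
  have h2 := Ring.factorial_nsmul_multichoose_eq_ascPochhammer a n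
  rw [Polynomial.ascPochhammer_smeval_eq_eval] at h2
  have h3 : ∀ n : ℕ, (ascPochhammer ℝ n).eval a = (n.factorial : ℝ) * lc a n := by
    intro n
    induction n with
    | zero => simp [lc]
    | succ n ih =>
      rw [ascPochhammer_succ_eval, ih]
      unfold lc
      rw [Finset.prod_range_succ, Nat.factorial_succ]
      have h4 : ((n : ℝ) + 1) ≠ 0 := Nat.cast_add_one_ne_zero n
      push_cast
      field_simp
  rw [h3, nsmul_eq_mul] at h2
  have h5 : (n.factorial : ℝ) ≠ 0 := Nat.cast_ne_zero.2 (Nat.factorial_ne_zero n)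
  exact mul_left_cancel₀ h5 h2

/-- the binomial series -/
lemma hasSum_lc (β : ℝ) {x : ℝ} (hx : |x| < 1) :
    HasSum (fun m => lc β m * x ^ m) (1 / (1 - x) ^ β) := by
  have h1 := Real.one_div_one_sub_rpow_hasFPowerSeriesOnBall_zero β
  have h2 : x ∈ Metric.eball (0 : ℝ) 1 := by
    rw [← ENNReal.ofReal_one, Metric.eball_ofReal]
    simpa using hx
  have h3 := h1.hasSum h2
  rw [zero_add] at h3
  have h4 : (fun m => lc β m * x ^ m) = fun n => (FormalMultilinearSeries.ofScalars ℝ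
      fun n : ℕ => Ring.choose (β + n - 1) n) n fun _ => x := by
    funext n
    rw [FormalMultilinearSeries.ofScalars_apply_eq, choose_eq_lc, smul_eq_mul]
  rw [h4]
  exact h3

lemma Zr_le {σ : ℝ} (hσ : 0 < σ) (hσ1 : σ ≤ 1) : Zr σ ≤ 2 / σ := by
  have h1 := ZetaAsymptotics.zeta_limit_aux1 (s := 1 + σ) (by linarith)
  have h2 : 0 ≤ ZetaAsymptotics.termTSum (1 + σ) :=
    tsum_nonneg fun n => ZetaAsymptotics.term_nonneg _ _
  have h3 : Zr σ = ∑' n : ℕ, 1 / ((n : ℝ) + 1) ^ (1 + σ) := by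
    unfold Zr
    rw [(Zr_summable hσ).tsum_eq_zero_add]
    rw [show ((0 : ℕ) : ℝ) ^ (-1 - σ) = 0 by
      rw [Nat.cast_zero]; exact Real.zero_rpow (by linarith), zero_add]
    refine tsum_congr fun n => ?_
    push_cast
    rw [one_div, ← Real.rpow_neg (by positivity)]
    congr 1; ring
  rw [← h3] at h1
  have h4 : 1 / (1 + σ - 1) = 1 / σ := by congr 1; ring
  rw [h4] at h1
  have h5 : 0 ≤ (1 + σ) * ZetaAsymptotics.termTSum (1 + σ) := mul_nonneg (by linarith) h2
  have h6 : 1 ≤ 1 / σ := by rw [le_div_iff₀ hσ]; linarith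
  have h7 : 2 / σ = 1 / σ + 1 / σ := by ring
  rw [h7]
  linarith

lemma tsum_dv {β : ℝ} (hβ : 0 ≤ β) {σ : ℝ} (hσ : 0 < σ) :
    ∑' n : ℕ, dv β n * (n : ℝ) ^ (-1 - σ) = Zr σ ^ β := by
  have hsum := summable_dv hβ hσ
  have h1 : HasProd (fun p : Nat.Primes => ∑' m : ℕ, dv β ((p : ℕ) ^ m) *
      (((p : ℕ) ^ m : ℕ) : ℝ) ^ (-1 - σ)) (∑' n : ℕ, dv β n * (n : ℝ) ^ (-1 - σ)) := by
    refine EulerProduct.eulerProduct_hasProd (f := fun n : ℕ => dv β n * (n : ℝ) ^ (-1 - σ))
      ?_ ?_ hsum.norm ?_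
    · simp [dv_one]
    · intro m n h
      have h1 := (dA_mult β).map_mul_of_coprime h
      rw [dA_apply, dA_apply, dA_apply] at h1
      show dv β (m * n) * ((m * n : ℕ) : ℝ) ^ (-1 - σ) = _
      rw [h1]
      push_cast
      rw [Real.mul_rpow (by positivity) (by positivity)]
      ring
    · simp [dv]
  have h3 : HasProd (fun p : Nat.Primes => ((1 - ((p : ℕ) : ℝ) ^ (-1 - σ))⁻¹) ^ β) (Zr σ ^ β) := by
    refine HasProd.rpow (Zr_hasProd hσ) (fun p => ?_) (Zr_pos hσ) _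
    have h1 := rpow_term p.2 hσ.le
    have h2 := (inv_prime p.2).2
    have : 0 ≤ 1 - ((p : ℕ) : ℝ) ^ (-1 - σ) := by linarith
    positivity
  refine HasProd.unique h1 ?_
  refine h3.congr_fun ?_
  intro p
  have e1 := rpow_term p.2 hσ.le
  have e2 := (inv_prime p.2).2
  have e3 : 0 < ((p : ℕ) : ℝ) := by exact_mod_cast p.2.pos
  have e4 : 0 ≤ ((p : ℕ) : ℝ) ^ (-1 - σ) := by positivity
  have e5 : |((p : ℕ) : ℝ) ^ (-1 - σ)| < 1 := by
    rw [abs_of_nonneg e4]; linarith
  have e6 := (hasSum_lc β e5).tsum_eq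
  have e7 : ∑' m : ℕ, dv β ((p : ℕ) ^ m) * (((p : ℕ) ^ m : ℕ) : ℝ) ^ (-1 - σ) =
      ∑' m : ℕ, lc β m * (((p : ℕ) : ℝ) ^ (-1 - σ)) ^ m := by
    refine tsum_congr fun m => ?_
    rw [dv_prime_pow _ p.2]
    push_cast
    rw [← Real.rpow_natCast, ← Real.rpow_mul e3.le, mul_comm ((m : ℝ)), Real.rpow_mul e3.le,
      Real.rpow_natCast]
  rw [e7, e6, one_div, Real.inv_rpow (by linarith)]

theorem p_zc2 : S_ZC2 := by
  intro b
  have hb : 0 ≤ |b| := abs_nonneg b
  have key : ∀ s : ℂ, 1 < s.re → Summable (fun n : ℕ => ‖((dv b n : ℝ) : ℂ) * (n : ℂ) ^ (-s)‖) := by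
    intro s hs
    refine Summable.of_nonneg_of_le (fun n => norm_nonneg _) (fun n => ?_)
      (summable_dv hb (σ := s.re - 1) (by linarith))
    rcases Nat.eq_zero_or_pos n with h0 | h0
    · subst h0; simp [dv]
    · rw [norm_mul, Complex.norm_natCast_cpow_of_pos h0, Complex.norm_real, Real.norm_eq_abs]
      rw [show (-s).re = -1 - (s.re - 1) by rw [Complex.neg_re]; ring]
      exact mul_le_mul_of_nonneg_right (abs_dv_le b n) (by positivity)
  refine ⟨key, ?_, ?_⟩
  · have hLS : LS b = LSeries (fun n => ((dv b n : ℝ) : ℂ)) := by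
      funext s
      unfold LS LSeries
      refine tsum_congr fun n => ?_
      rcases Nat.eq_zero_or_pos n with h0 | h0
      · subst h0; simp [dv]
      · rw [LSeries.term_of_ne_zero h0.ne', Complex.cpow_neg, div_eq_mul_inv]
    have habs : LSeries.abscissaOfAbsConv (fun n => ((dv b n : ℝ) : ℂ)) ≤ 1 := by
      refine LSeries.abscissaOfAbsConv_le_of_forall_lt_LSeriesSummable' (x := 1) ?_
      intro y hy
      have hy' : (1 : ℝ) < y := by exact_mod_cast hy
      have h1 := (key (y : ℂ) (by simpa using hy')).of_norm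
      unfold LSeriesSummable
      refine h1.congr fun n => ?_
      rcases Nat.eq_zero_or_pos n with h0 | h0
      · subst h0; simp [dv]
      · rw [LSeries.term_of_ne_zero h0.ne', Complex.cpow_neg, div_eq_mul_inv]
    rw [hLS]
    refine (LSeries_differentiableOn _).mono ?_
    intro s hs
    have hs' : (1 : ℝ) < s.re := hs
    show LSeries.abscissaOfAbsConv _ < (s.re : EReal)
    exact lt_of_le_of_lt habs (by exact_mod_cast hs')
  · intro c hc hc1
    have h0 : ∀ n : ℕ, |dv b n| * (n : ℝ) ^ (-(1 + c)) ≤ dv |b| n * (n : ℝ) ^ (-1 - c) := by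
      intro n
      rw [show (-(1 + c) : ℝ) = -1 - c by ring]
      exact mul_le_mul_of_nonneg_right (abs_dv_le b n) (by positivity)
    have hs : Summable (fun n : ℕ => |dv b n| * (n : ℝ) ^ (-(1 + c))) :=
      Summable.of_nonneg_of_le (fun n => by positivity) h0 (summable_dv hb hc)
    refine ⟨hs, ?_⟩
    calc ∑' n : ℕ, |dv b n| * (n : ℝ) ^ (-(1 + c))
        ≤ ∑' n : ℕ, dv |b| n * (n : ℝ) ^ (-1 - c) := hs.tsum_le_tsum h0 (summable_dv hb hc)
      _ = Zr c ^ |b| := tsum_dv hb hc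
      _ ≤ (2 / c) ^ |b| := Real.rpow_le_rpow (Zr_pos hc).le (Zr_le hc hc1) hb

end Pool.Agent.W2helper82.ZQ
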